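import Mathlib

/-!
# Semigroups in which all intersection sets are full

For a semigroup `S` and a decreasing sequence `A q` of subsets with intersection `A` one has
`A ^ h ⊆ ⋂ q, (A q) ^ h`.  The semigroups are determined in which equality holds for all `h` and all
sequences which are not eventually constant, while for all large `h` some element has infinitely
many factorisations into `h` factors.

Only the factorisations into two factors matter.  If `a b = x` for infinitely many `b`, then the
sequences `{a} ∪ {b q, b (q + 1), …}` force `x = a a`, and a sequence `b n * c n = x` with all `b n`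
different and all `c n` different is impossible.  Conversely these conditions give first
`a a = a a a` (the products `b n * b n` take infinitely many values, all of which are multiplied by
`a` to `a a a`), so that words with the value `x` can be shortened or lengthened; a word with entries
which are constant or different from each other along a subsequence can then be replaced by a word
of the same length in its constant entries.
-/

set_option autoImplicit false

namespace Pool.Agent.Results.MP_3b8abe_co.FactorPairs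

universe u

/-- The product `t 0 * t 1 * ⋯ * t n` of a tuple with `n + 1` entries. -/
def tprod {S : Type u} [Semigroup S] : (n : ℕ) → (Fin (n + 1) → S) → S
  | 0, t => t 0
  | n + 1, t => t 0 * tprod n (Fin.tail t)

/-- The set `A ^ (n + 1)` of the products of `n + 1` elements of `A`. -/
def setPow {S : Type u} [Semigroup S] (A : Set S) (n : ℕ) : Set S :=
  {x | ∃ t : Fin (n + 1) → S, (∀ i, t i ∈ A) ∧ tprod n t = x}

/-- Property 1: for every large `h = n + 1` some element has infinitely many factorisations into `h`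
factors. -/
def InfinitelyRepresented (S : Type u) [Semigroup S] : Prop :=
  ∃ n₀ : ℕ, ∀ n ≥ n₀, ∃ x : S, {t : Fin (n + 1) → S | tprod n t = x}.Infinite

/-- Property 2: `A ^ h = ⋂ q, (A q) ^ h`, with `A = ⋂ q, A q`, for every `h = n + 1` and every
decreasing sequence of sets with `A (q + 1) ≠ A q` for infinitely many `q`. -/
def FullIntersections (S : Type u) [Semigroup S] : Prop :=
  ∀ A : ℕ → Set S, (∀ q, A (q + 1) ⊆ A q) → {q | A (q + 1) ≠ A q}.Infinite →
    ∀ n : ℕ, setPow (⋂ q, A q) n = ⋂ q, setPow (A q) n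

/-- The condition on the factorisations into two factors: for every `x` there is a finite set `F` of
square roots of `x` such that all but finitely many of the pairs `(b, c)` with `b * c = x` have
`b ∈ F` or `c ∈ F`. -/
def FewPairs (S : Type u) [Semigroup S] : Prop :=
  ∀ x : S, ∃ F : Finset S, (∀ a ∈ F, a * a = x) ∧
    {p : S × S | p.1 * p.2 = x ∧ p.1 ∉ F ∧ p.2 ∉ F}.Finite

section
variable {S : Type u} [Semigroup S]

/-- the local form of the condition -/
structure Loc (S : Type u) [Semigroup S] : Prop where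
  left : ∀ (a x : S) (b : ℕ → S), Function.Injective b → (∀ n, a * b n = x) → x = a * a
  right : ∀ (a x : S) (b : ℕ → S), Function.Injective b → (∀ n, b n * a = x) → x = a * a
  both : ∀ (x : S) (b c : ℕ → S), Function.Injective b → Function.Injective c →
    ¬ ∀ n, b n * c n = x

/-- a subsequence is constant or injective -/
theorem subseq {T : Type u} (f : ℕ → T) : ∃ φ : ℕ → ℕ, StrictMono φ ∧
    ((∃ c, ∀ n, f (φ n) = c) ∨ Function.Injective fun n => f (φ n)) := by
  obtain ⟨g, h | h⟩ := exists_increasing_or_nonincreasing_subseq (· = ·) f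
  · refine ⟨g, g.strictMono, Or.inl ⟨f (g 0), fun n => ?_⟩⟩
    rcases Nat.eq_zero_or_pos n with rfl | hn
    · rfl
    · exact (h 0 n hn).symm
  · refine ⟨g, g.strictMono, Or.inr fun m n hmn => ?_⟩
    rcases lt_trichotomy m n with h1 | h1 | h1
    · exact absurd hmn (h m n h1)
    · exact h1
    · exact absurd hmn.symm (h n m h1)

theorem exists_seq {T : Type u} {A : Set T} (h : A.Infinite) :
    ∃ b : ℕ → T, Function.Injective b ∧ ∀ n, b n ∈ A :=
  ⟨fun n => (h.natEmbedding A n : T), fun _ _ hmn => (h.natEmbedding A).injective (Subtype.ext hmn),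
    fun n => (h.natEmbedding A n).2⟩

theorem infinite_of_seq {T : Type u} {A : Set T} (b : ℕ → T) (hb : Function.Injective b)
    (h : ∀ n, b n ∈ A) : A.Infinite :=
  Set.infinite_of_injective_forall_mem hb h

/-- `a * a = a * a * a` if `a * b = a * a` for infinitely many `b` -/
theorem Loc.cubeL (hS : Loc S) {a x : S} {b : ℕ → S} (hb : Function.Injective b)
    (h : ∀ n, a * b n = x) : x = a * a ∧ a * (a * a) = a * a := by
  have hx := hS.left a x b hb h
  refine ⟨hx, ?_⟩
  obtain ⟨φ, hφ, ⟨c, hc⟩ | hi⟩ := subseq fun n => b n * b n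
  · exact absurd hc (hS.both c _ _ (hb.comp hφ.injective) (hb.comp hφ.injective))
  · refine hS.left a (a * (a * a)) _ hi fun n => ?_
    show a * (b (φ n) * b (φ n)) = _
    rw [← mul_assoc, h, hx, mul_assoc, h, hx]

theorem Loc.cubeR (hS : Loc S) {a x : S} {b : ℕ → S} (hb : Function.Injective b)
    (h : ∀ n, b n * a = x) : x = a * a ∧ a * (a * a) = a * a := by
  have hx := hS.right a x b hb h
  refine ⟨hx, ?_⟩
  obtain ⟨φ, hφ, ⟨c, hc⟩ | hi⟩ := subseq fun n => b n * b n
  · exact absurd hc (hS.both c _ _ (hb.comp hφ.injective) (hb.comp hφ.injective))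
  · refine hS.right a (a * (a * a)) _ hi fun n => ?_
    show b (φ n) * b (φ n) * a = _
    rw [mul_assoc, h, hx, ← mul_assoc, h, hx, mul_assoc]

theorem setPow_zero {A : Set S} {x : S} (hx : x ∈ A) : x ∈ setPow A 0 :=
  ⟨fun _ => x, fun _ => hx, rfl⟩

theorem mem_of_setPow_zero {A : Set S} {x : S} (hx : x ∈ setPow A 0) : x ∈ A := by
  obtain ⟨t, ht, rfl⟩ := hx
  exact ht 0

theorem setPow_cons {A : Set S} {a x : S} {n : ℕ} (ha : a ∈ A) (hx : x ∈ setPow A n) :
    a * x ∈ setPow A (n + 1) := by
  obtain ⟨t, ht, rfl⟩ := hx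
  refine ⟨Fin.cons a t, fun i => ?_, ?_⟩
  · refine Fin.cases ?_ (fun j => ?_) i
    · simpa using ha
    · simpa using ht j
  · rfl

theorem setPow_one {A : Set S} {x : S} : x ∈ setPow A 1 ↔ ∃ a ∈ A, ∃ b ∈ A, a * b = x := by
  constructor
  · rintro ⟨t, ht, rfl⟩
    exact ⟨t 0, ht 0, t 1, ht 1, rfl⟩
  · rintro ⟨a, ha, b, hb, rfl⟩
    exact setPow_cons ha (setPow_zero hb)

theorem setPow_mono {A B : Set S} (h : A ⊆ B) (n : ℕ) : setPow A n ⊆ setPow B n := by
  rintro x ⟨t, ht, rfl⟩
  exact ⟨t, fun i => h (ht i), rfl⟩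

/-- if `c * c = c * c * c`, then `c * c` is a product of any number of factors `c` -/
theorem pad {A : Set S} {c : S} (hc : c ∈ A) (h : c * (c * c) = c * c) (n : ℕ) :
    c * c ∈ setPow A (n + 1) := by
  induction n with
  | zero => exact setPow_one.2 ⟨c, hc, c, hc, rfl⟩
  | succ n ih =>
    have := setPow_cons hc ih
    rwa [h] at this

theorem padMul {A : Set S} {c p : S} (hc : c ∈ A) (h : c * (c * c) = c * c) {k : ℕ}
    (hp : p ∈ setPow A k) (n : ℕ) : c * (c * p) ∈ setPow A (k + 2 + n) := by
  induction n with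
  | zero => exact setPow_cons hc (setPow_cons hc hp)
  | succ n ih =>
    have h1 := setPow_cons hc ih
    have h2 : c * (c * (c * p)) = c * (c * p) := by
      rw [← mul_assoc c c p, ← mul_assoc, h]
    rwa [h2] at h1

/-- If `w n * p = z` for different `w n`, where `p` is a product of `k + 1` elements of `A`, then `z` is a
product of any number `≥ k + 2` of elements of `A`. -/
theorem Loc.absorb (hS : Loc S) {A : Set S} (k : ℕ) : ∀ (w : ℕ → S) (p z : S),
    Function.Injective w → p ∈ setPow A k → (∀ n, w n * p = z) →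
      ∀ m, k + 1 ≤ m → z ∈ setPow A m := by
  induction k with
  | zero =>
    intro w p z hw hp hz m hm
    have hpA := mem_of_setPow_zero hp
    obtain ⟨h1, h2⟩ := hS.cubeR hw hz
    obtain ⟨j, rfl⟩ : ∃ j, m = j + 1 := ⟨m - 1, by omega⟩
    rw [h1]
    exact pad hpA h2 j
  | succ k ih =>
    intro w p z hw hp hz m hm
    obtain ⟨t, ht, rfl⟩ := hp
    have htail : tprod k (Fin.tail t) ∈ setPow A k := ⟨Fin.tail t, fun i => ht i.succ, rfl⟩
    obtain ⟨φ, hφ, ⟨c, hc⟩ | hi⟩ := subseq fun n => w n * t 0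
    · obtain ⟨h1, h2⟩ := hS.cubeR (hw.comp hφ.injective) hc
      have h3 : z = t 0 * (t 0 * tprod k (Fin.tail t)) := by
        have h4 := hz (φ 0)
        have h5 : w (φ 0) * (t 0 * tprod k (Fin.tail t)) = z := h4
        rw [← mul_assoc, hc, h1, mul_assoc] at h5
        exact h5.symm
      obtain ⟨j, rfl⟩ : ∃ j, m = k + 2 + j := ⟨m - (k + 2), by omega⟩
      rw [h3]
      exact padMul (ht 0) h2 htail j
    · refine ih _ (tprod k (Fin.tail t)) z hi htail (fun n => ?_) m (by omega)
      show w (φ n) * t 0 * tprod k (Fin.tail t) = z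
      rw [mul_assoc]
      exact hz (φ n)

/-- along a subsequence the products of tuples with entries in `A q` are all different, or constant
and a product of elements of the intersection -/
theorem Loc.dichotomy (hS : Loc S) {A : ℕ → Set S} (hA : ∀ q r, q ≤ r → A r ⊆ A q) (n : ℕ) :
    ∀ t : ℕ → Fin (n + 1) → S, (∀ q i, t q i ∈ A q) → ∃ φ : ℕ → ℕ, StrictMono φ ∧
      ((Function.Injective fun q => tprod n (t (φ q))) ∨
        ∃ y ∈ setPow (⋂ q, A q) n, ∀ q, tprod n (t (φ q)) = y) := by
  have mem : ∀ (f : ℕ → S) (φ : ℕ → ℕ) (c : S), StrictMono φ → (∀ q, f q ∈ A q) →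
      (∀ q, f (φ q) = c) → c ∈ ⋂ q, A q := by
    intro f φ c hφ hf hc
    refine Set.mem_iInter.2 fun q => ?_
    rw [← hc q]
    exact hA q (φ q) (hφ.id_le q) (hf (φ q))
  induction n with
  | zero =>
    intro t ht
    obtain ⟨φ, hφ, ⟨c, hc⟩ | hi⟩ := subseq fun q => t q 0
    · exact ⟨φ, hφ, Or.inr ⟨c, setPow_zero (mem _ φ c hφ (fun q => ht q 0) hc), hc⟩⟩
    · exact ⟨φ, hφ, Or.inl hi⟩
  | succ n ih =>
    intro t ht
    obtain ⟨φ, hφ, h⟩ := ih (fun q => Fin.tail (t q)) (fun q i => ht q i.succ)
    obtain ⟨ψ, hψ, h'⟩ := subseq fun q => t (φ q) 0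
    obtain ⟨χ, hχ, h''⟩ := subseq fun q => tprod (n + 1) (t (φ (ψ q)))
    have hall : StrictMono fun q => φ (ψ (χ q)) := hφ.comp (hψ.comp hχ)
    refine ⟨fun q => φ (ψ (χ q)), hall, ?_⟩
    rcases h'' with ⟨z, hz⟩ | hi
    swap
    · exact Or.inl hi
    right
    refine ⟨z, ?_, hz⟩
    have hz' : ∀ q, t (φ (ψ (χ q))) 0 * tprod n (Fin.tail (t (φ (ψ (χ q))))) = z := hz
    have hiψχ : Function.Injective fun q => ψ (χ q) := (hψ.comp hχ).injective
    rcases h with hp | ⟨y, hy, hp⟩
    · have hp' : Function.Injective fun q => tprod n (Fin.tail (t (φ (ψ (χ q))))) :=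
        fun a b hab => hiψχ (hp hab)
      rcases h' with ⟨a, ha⟩ | ht0
      · have haA : a ∈ ⋂ q, A q := mem (fun q => t q 0) (fun q => φ (ψ q)) a (hφ.comp hψ)
          (fun q => ht q 0) ha
        have h1 : ∀ q, a * tprod n (Fin.tail (t (φ (ψ (χ q))))) = z := by
          intro q
          rw [← ha (χ q)]
          exact hz' q
        obtain ⟨h2, h3⟩ := hS.cubeL hp' h1
        rw [h2]
        exact pad haA h3 n
      · have ht0' : Function.Injective fun q => t (φ (ψ (χ q))) 0 :=
          fun a b hab => hχ.injective (ht0 hab)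
        exact absurd hz' (hS.both z _ _ ht0' hp')
    · have hp' : ∀ q, tprod n (Fin.tail (t (φ (ψ (χ q))))) = y := fun q => hp _
      rcases h' with ⟨a, ha⟩ | ht0
      · have haA : a ∈ ⋂ q, A q := mem (fun q => t q 0) (fun q => φ (ψ q)) a (hφ.comp hψ)
          (fun q => ht q 0) ha
        have h1 := hz' 0
        rw [hp' 0, ha (χ 0)] at h1
        rw [← h1]
        exact setPow_cons haA hy
      · have ht0' : Function.Injective fun q => t (φ (ψ (χ q))) 0 :=
          fun a b hab => hχ.injective (ht0 hab)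
        exact hS.absorb n _ y z ht0' hy (fun q => by rw [← hp' q]; exact hz' q) (n + 1) le_rfl

theorem Loc.full (hS : Loc S) : FullIntersections S := by
  intro A hA _ n
  have hanti : ∀ q r, q ≤ r → A r ⊆ A q := fun q r hqr => antitone_nat_of_succ_le hA hqr
  apply Set.Subset.antisymm
  · exact Set.subset_iInter fun q => setPow_mono (Set.iInter_subset _ q) n
  · intro x hx
    have hx' : ∀ q, ∃ t : Fin (n + 1) → S, (∀ i, t i ∈ A q) ∧ tprod n t = x :=
      fun q => Set.mem_iInter.1 hx q
    choose t ht htx using hx'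
    obtain ⟨φ, -, h | ⟨y, hy, h⟩⟩ := hS.dichotomy hanti n t ht
    · have := h (a₁ := 0) (a₂ := 1) (by simp only [htx])
      omega
    · rw [← htx (φ 0), h 0]
      exact hy

theorem escape (h : FullIntersections S) (K : Set S) (d : ℕ → Set S)
    (hd : ∀ s, {n | s ∈ d n}.Finite) (hdK : ∀ n, ∀ s ∈ d n, s ∉ K) (hne : ∀ n, (d n).Nonempty)
    (x : S) (m : ℕ) (hx : ∀ n, x ∈ setPow (K ∪ d n) m) : x ∈ setPow K m := by
  set A : ℕ → Set S := fun q => K ∪ ⋃ n ≥ q, d n with hAdef
  have hanti : ∀ q, A (q + 1) ⊆ A q := by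
    intro q s hs
    rcases hs with hs | hs
    · exact Or.inl hs
    · obtain ⟨n, hn, hs⟩ := Set.mem_iUnion₂.1 hs
      exact Or.inr (Set.mem_iUnion₂.2 ⟨n, by omega, hs⟩)
  have hinter : (⋂ q, A q) = K := by
    apply Set.Subset.antisymm
    · intro s hs
      by_contra hsK
      obtain ⟨N, hN⟩ := (hd s).bddAbove
      rcases Set.mem_iInter.1 hs (N + 1) with h1 | h1
      · exact hsK h1
      · obtain ⟨n, hn, hs'⟩ := Set.mem_iUnion₂.1 h1
        have := hN hs'
        omega
    · exact Set.subset_iInter fun q => Set.subset_union_left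
  have hinf : {q | A (q + 1) ≠ A q}.Infinite := by
    intro hfin
    obtain ⟨N, hN⟩ := hfin.bddAbove
    have hconst : ∀ q, A (N + 1 + q) = A (N + 1) := by
      intro q
      induction q with
      | zero => rfl
      | succ q ih =>
        by_contra hcon
        have hmem : N + 1 + q ∈ {q | A (q + 1) ≠ A q} := by
          intro heq
          exact hcon (heq.trans ih)
        have := hN hmem
        omega
    obtain ⟨s, hs⟩ := hne (N + 1)
    have hsA : s ∈ A (N + 1) := Or.inr (Set.mem_iUnion₂.2 ⟨N + 1, le_rfl, hs⟩)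
    have : s ∈ ⋂ q, A q := by
      refine Set.mem_iInter.2 fun q => ?_
      have h1 : s ∈ A (N + 1 + q) := by rw [hconst]; exact hsA
      exact antitone_nat_of_succ_le hanti (by omega : q ≤ N + 1 + q) h1
    rw [hinter] at this
    exact hdK _ s hs this
  have := h A hanti hinf m
  rw [hinter] at this
  rw [this]
  refine Set.mem_iInter.2 fun q => setPow_mono ?_ m (hx q)
  exact Set.union_subset_union_right K fun s hs => Set.mem_iUnion₂.2 ⟨q, le_rfl, hs⟩

omit [Semigroup S] in
/-- remove one value from an injective sequence -/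
theorem avoid {b : ℕ → S} (hb : Function.Injective b) (a : S) :
    ∃ φ : ℕ → ℕ, StrictMono φ ∧ ∀ n, b (φ n) ≠ a := by
  have : {n | b n ≠ a}.Infinite := by
    have h1 : {n | b n = a}.Finite := by
      refine Set.Subsingleton.finite fun m hm n hn => hb ?_
      have h1 : b m = a := hm
      have h2 : b n = a := hn
      exact h1.trans h2.symm
    exact h1.infinite_compl
  obtain ⟨φ, hφ, h⟩ := Filter.extraction_of_frequently_atTop
    (Nat.frequently_atTop_iff_infinite.2 this)
  exact ⟨φ, hφ, h⟩

theorem loc_of_full (h : FullIntersections S) : Loc S := by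
  have hfin : ∀ (b : ℕ → S), Function.Injective b → ∀ s, {n | s = b n}.Finite := by
    intro b hb s
    refine Set.Subsingleton.finite fun m hm n hn => hb ?_
    have h1 : s = b m := hm
    have h2 : s = b n := hn
    rw [← h1, ← h2]
  refine ⟨?_, ?_, ?_⟩
  · intro a x b hb hx
    obtain ⟨φ, hφ, hne⟩ := avoid hb a
    have hb' := hb.comp hφ.injective
    have := escape h {a} (fun n => {b (φ n)}) (fun s => hfin _ hb' s)
      (fun n s hs hs' => hne n ((Set.mem_singleton_iff.1 hs).symm.trans hs'))
      (fun n => Set.singleton_nonempty _) x 1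
      (fun n => setPow_one.2 ⟨a, Or.inl rfl, b (φ n), Or.inr rfl, hx _⟩)
    obtain ⟨c, rfl, d, rfl, h2⟩ := setPow_one.1 this
    exact h2.symm
  · intro a x b hb hx
    obtain ⟨φ, hφ, hne⟩ := avoid hb a
    have hb' := hb.comp hφ.injective
    have := escape h {a} (fun n => {b (φ n)}) (fun s => hfin _ hb' s)
      (fun n s hs hs' => hne n ((Set.mem_singleton_iff.1 hs).symm.trans hs'))
      (fun n => Set.singleton_nonempty _) x 1
      (fun n => setPow_one.2 ⟨b (φ n), Or.inr rfl, a, Or.inl rfl, hx _⟩)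
    obtain ⟨c, rfl, d, rfl, h2⟩ := setPow_one.1 this
    exact h2.symm
  · intro x b c hb hc hx
    have := escape h ∅ (fun n => {b n, c n})
      (fun s => ((hfin b hb s).union (hfin c hc s)).subset (by
        intro n hn
        rcases hn with hn | hn
        · exact Or.inl hn
        · exact Or.inr hn))
      (fun n s _ hs' => hs')
      (fun n => ⟨b n, Or.inl rfl⟩) x 1
      (fun n => setPow_one.2 ⟨b n, Or.inr (Or.inl rfl), c n, Or.inr (Or.inr rfl), hx n⟩)
    obtain ⟨c, hc, -⟩ := setPow_one.1 this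
    exact hc

theorem few_of_loc (hS : Loc S) : FewPairs S := by
  classical
  intro x
  have hV : ∃ V : Finset S, ∀ p : S × S, p.1 * p.2 = x → p.1 ∈ V ∨ p.2 ∈ V := by
    by_contra hcon
    push Not at hcon
    obtain ⟨f, hf, hf'⟩ := exists_seq_of_forall_finset_exists (fun p : S × S => p.1 * p.2 = x)
      (fun p q => p.1 ≠ q.1 ∧ p.2 ≠ q.2) (by
        intro s _
        obtain ⟨p, h1, h2, h3⟩ := hcon (s.image Prod.fst ∪ s.image Prod.snd)
        refine ⟨p, h1, fun q hq => ⟨fun he => ?_, fun he => ?_⟩⟩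
        · exact h2 (Finset.mem_union_left _ (Finset.mem_image.2 ⟨q, hq, he⟩))
        · exact h3 (Finset.mem_union_right _ (Finset.mem_image.2 ⟨q, hq, he⟩)))
    refine hS.both x (fun n => (f n).1) (fun n => (f n).2) ?_ ?_ hf
    · intro m n hmn
      rcases lt_trichotomy m n with h1 | h1 | h1
      · exact absurd hmn (hf' m n h1).1
      · exact h1
      · exact absurd hmn.symm (hf' n m h1).1
    · intro m n hmn
      rcases lt_trichotomy m n with h1 | h1 | h1
      · exact absurd hmn (hf' m n h1).2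
      · exact h1
      · exact absurd hmn.symm (hf' n m h1).2
  obtain ⟨V, hV⟩ := hV
  refine ⟨V.filter fun a => a * a = x, fun a ha => (Finset.mem_filter.1 ha).2, ?_⟩
  have hl : ∀ a, a * a ≠ x → {c | a * c = x}.Finite := by
    intro a ha
    by_contra hinf
    obtain ⟨b, hb, hb'⟩ := exists_seq hinf
    exact ha (hS.left a x b hb hb').symm
  have hr : ∀ a, a * a ≠ x → {c | c * a = x}.Finite := by
    intro a ha
    by_contra hinf
    obtain ⟨b, hb, hb'⟩ := exists_seq hinf
    exact ha (hS.right a x b hb hb').symm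
  have hfin : (⋃ a ∈ V.filter fun a => ¬ a * a = x,
      ((fun c => (a, c)) '' {c | a * c = x} ∪ (fun c => (c, a)) '' {c | c * a = x})).Finite := by
    refine Set.Finite.biUnion (Finset.finite_toSet _) fun a ha => ?_
    have ha' := (Finset.mem_filter.1 ha).2
    exact ((hl a ha').image _).union ((hr a ha').image _)
  refine hfin.subset ?_
  rintro ⟨b, c⟩ ⟨h1, h2, h3⟩
  simp only [Finset.mem_filter, not_and] at h1 h2 h3
  rcases hV (b, c) h1 with h4 | h4
  · refine Set.mem_iUnion₂.2 ⟨b, Finset.mem_coe.2 (Finset.mem_filter.2 ⟨h4, h2 h4⟩), Or.inl ⟨c, h1, rfl⟩⟩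
  · refine Set.mem_iUnion₂.2 ⟨c, Finset.mem_coe.2 (Finset.mem_filter.2 ⟨h4, h3 h4⟩), Or.inr ⟨b, h1, rfl⟩⟩

theorem loc_of_few (h : FewPairs S) : Loc S := by
  have hfin : ∀ (b : ℕ → S), Function.Injective b → ∀ F : Finset S, {n | b n ∈ F}.Finite := by
    intro b hb F
    exact Set.Finite.preimage (hb.injOn) F.finite_toSet
  refine ⟨?_, ?_, ?_⟩
  · intro a x b hb hx
    obtain ⟨F, hF, hF'⟩ := h x
    by_contra hne
    have haF : a ∉ F := fun ha => hne (hF a ha).symm
    have h1 : {n | b n ∈ F}ᶜ.Infinite := (hfin b hb F).infinite_compl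
    refine (h1.image (f := fun n => (a, b n)) fun m _ n _ hmn => hb (Prod.ext_iff.1 hmn).2) ?_
    exact hF'.subset (by rintro _ ⟨n, hn, rfl⟩; exact ⟨hx n, haF, hn⟩)
  · intro a x b hb hx
    obtain ⟨F, hF, hF'⟩ := h x
    by_contra hne
    have haF : a ∉ F := fun ha => hne (hF a ha).symm
    have h1 : {n | b n ∈ F}ᶜ.Infinite := (hfin b hb F).infinite_compl
    refine (h1.image (f := fun n => (b n, a)) fun m _ n _ hmn => hb (Prod.ext_iff.1 hmn).1) ?_
    exact hF'.subset (by rintro _ ⟨n, hn, rfl⟩; exact ⟨hx n, hn, haF⟩)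
  · intro x b c hb hc hx
    obtain ⟨F, hF, hF'⟩ := h x
    have h1 : ({n | b n ∈ F} ∪ {n | c n ∈ F})ᶜ.Infinite :=
      ((hfin b hb F).union (hfin c hc F)).infinite_compl
    refine (h1.image (f := fun n => (b n, c n)) fun m _ n _ hmn => hb (Prod.ext_iff.1 hmn).1) ?_
    refine hF'.subset ?_
    rintro _ ⟨n, hn, rfl⟩
    exact ⟨hx n, fun h2 => hn (Or.inl h2), fun h2 => hn (Or.inr h2)⟩

/-- `x = b n * v`, `x = u * b n` or `x = u * b n * v` for different elements `b n` -/
def Word (x : S) : Prop :=
  ∃ b : ℕ → S, Function.Injective b ∧ ((∃ v, ∀ n, b n * v = x) ∨ (∃ u, ∀ n, u * b n = x) ∨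
    ∃ u v, ∀ n, u * b n * v = x)

theorem Loc.idem (hS : Loc S) {x : S} (hx : Word x) : x * x = x := by
  have type1 : ∀ (b : ℕ → S) (v y : S), Function.Injective b → (∀ n, b n * v = y) → y * y = y := by
    intro b v y hb h
    obtain ⟨h1, h2⟩ := hS.cubeR hb h
    rw [h1, mul_assoc, h2, h2]
  have type2 : ∀ (b : ℕ → S) (v y : S), Function.Injective b → (∀ n, v * b n = y) → y * y = y := by
    intro b v y hb h
    obtain ⟨h1, h2⟩ := hS.cubeL hb h
    rw [h1, mul_assoc, h2, h2]
  obtain ⟨b, hb, ⟨v, h⟩ | ⟨u, h⟩ | ⟨u, v, h⟩⟩ := hx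
  · exact type1 b v x hb h
  · exact type2 b u x hb h
  obtain ⟨φ, hφ, ⟨e, he⟩ | hi⟩ := subseq fun n => u * b n
  swap
  · exact type1 _ v x hi fun n => h (φ n)
  obtain ⟨ψ, hψ, ⟨f, hf⟩ | hi⟩ := subseq fun n => b (φ n) * v
  swap
  · refine type2 _ u x hi fun n => ?_
    show u * (b (φ (ψ n)) * v) = x
    rw [← mul_assoc]
    exact h _
  set B : ℕ → S := fun n => b (φ (ψ n)) with hB
  have hBi : Function.Injective B := hb.comp (hφ.comp hψ).injective
  have he' : ∀ n, u * B n = e := fun n => he (ψ n)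
  have hf' : ∀ n, B n * v = f := fun n => hf n
  obtain ⟨e1, e2⟩ := hS.cubeL hBi he'
  obtain ⟨f1, f2⟩ := hS.cubeR hBi hf'
  have hee : e * e = e := by rw [e1, mul_assoc, e2, e2]
  have hff : f * f = f := by rw [f1, mul_assoc, f2, f2]
  have heB : ∀ n, e * B n = e := by
    intro n
    rw [e1, mul_assoc, he', e1, e2]
  have hBf : ∀ n, B n * f = f := by
    intro n
    rw [f1, ← mul_assoc, hf', f1, mul_assoc, f2]
  have hxe : x = e * v := by rw [← h (φ 0), he 0]
  have hxf : x = u * f := by
    rw [← h (φ (ψ 0)), mul_assoc]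
    exact congrArg (u * ·) (hf 0)
  have hxv : x * v = x := by rw [hxf, f1, mul_assoc, mul_assoc, f2]
  have hxef : x = e * f := by
    rw [f1, ← mul_assoc, ← hxe, hxv]
  have hex : e * x = x := by rw [hxef, ← mul_assoc, hee]
  have hxf' : x * f = x := by rw [hxef, mul_assoc, hff]
  obtain ⟨χ, hχ, ⟨c, hc⟩ | hi⟩ := subseq fun n => f * B n
  · have hBχ : Function.Injective fun n => B (χ n) := hBi.comp hχ.injective
    have h1 := (hS.cubeL hBχ hc).1
    rw [hff] at h1
    refine type2 _ x x hBχ fun n => ?_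
    rw [hxef, mul_assoc]
    exact congrArg (e * ·) ((hc n).trans h1)
  · obtain ⟨θ, hθ, ⟨c, hc⟩ | hi'⟩ := subseq fun n => e * (f * B (χ n))
    · have hi2 : Function.Injective fun n => f * B (χ (θ n)) :=
        fun m n hmn => hθ.injective (hi hmn)
      have h1 := (hS.cubeL hi2 hc).1
      rw [hee] at h1
      have hBθ : Function.Injective fun n => B (χ (θ n)) := hBi.comp (hχ.comp hθ).injective
      have h2 : ∀ n, x * B (χ (θ n)) = e := by
        intro n
        rw [hxef, mul_assoc]
        exact (hc n).trans h1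
      obtain ⟨h3, h4⟩ := hS.cubeL hBθ h2
      have h5 : x * (x * x) = x := by
        rw [← mul_assoc, ← h3, hex]
      exact h4.symm.trans h5
    · have h1 := hS.cubeR hi' (a := f) (x := x) (by
        intro n
        show e * (f * B (χ (θ n))) * f = x
        rw [mul_assoc, mul_assoc, hBf, hff, ← hxef])
      have h2 : x = f := h1.1.trans hff
      rw [h2, hff]

theorem Loc.pairs (hS : Loc S) {x : S} (h : {p : S × S | p.1 * p.2 = x}.Infinite) :
    ∃ (a : S) (b : ℕ → S), Function.Injective b ∧ ((∀ n, b n * a = x) ∨ ∀ n, a * b n = x) := by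
  obtain ⟨p, hp, hpx⟩ := exists_seq h
  obtain ⟨φ, hφ, ⟨a, ha⟩ | hi⟩ := subseq fun n => (p n).1
  · refine ⟨a, fun n => (p (φ n)).2, fun m n hmn => ?_, Or.inr fun n => ?_⟩
    · exact hφ.injective (hp (Prod.ext ((ha m).trans (ha n).symm) hmn))
    · rw [← ha n]
      exact hpx _
  · obtain ⟨ψ, hψ, ⟨a, ha⟩ | hi'⟩ := subseq fun n => (p (φ n)).2
    · refine ⟨a, fun n => (p (φ (ψ n))).1, fun m n hmn => hψ.injective (hi hmn), Or.inl fun n => ?_⟩
      rw [← ha n]
      exact hpx _
    · exact absurd (fun n => hpx (φ (ψ n)))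
        (hS.both x _ _ (fun m n hmn => hψ.injective (hi hmn)) hi')

theorem Loc.word (hS : Loc S) (n : ℕ) : ∀ x : S, {t : Fin (n + 1) → S | tprod n t = x}.Infinite →
    Word x ∧ ∃ y : S, {p : S × S | p.1 * p.2 = y}.Infinite := by
  induction n with
  | zero =>
    intro x hx
    refine absurd (Set.Subsingleton.finite fun s hs t ht => ?_) hx
    funext i
    have h1 : s 0 = x := hs
    have h2 : t 0 = x := ht
    have h3 : i = 0 := Fin.ext (by omega)
    rw [h3, h1, h2]
  | succ n ih =>
    intro x hx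
    by_cases hP : {p : S × S | p.1 * p.2 = x}.Infinite
    · refine ⟨?_, x, hP⟩
      obtain ⟨a, b, hb, h | h⟩ := hS.pairs hP
      · exact ⟨b, hb, Or.inl ⟨a, h⟩⟩
      · exact ⟨b, hb, Or.inr (Or.inl ⟨a, h⟩)⟩
    · have hP' := Set.not_infinite.1 hP
      have hex : ∃ p : S × S, {t : Fin (n + 2) → S | tprod (n + 1) t = x ∧ t 0 = p.1 ∧
          tprod n (Fin.tail t) = p.2}.Infinite := by
        by_contra hcon
        push Not at hcon
        refine hx ((Set.Finite.biUnion hP' fun p _ => hcon p).subset ?_)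
        intro t ht
        exact Set.mem_iUnion₂.2 ⟨(t 0, tprod n (Fin.tail t)), ht, ht, rfl, rfl⟩
      obtain ⟨⟨a, z⟩, haz⟩ := hex
      have hz : {t : Fin (n + 1) → S | tprod n t = z}.Infinite := by
        refine (haz.image (f := Fin.tail) ?_).mono ?_
        · intro s hs t ht hst
          rw [← Fin.cons_self_tail s, ← Fin.cons_self_tail t, hs.2.1, ht.2.1, hst]
        · rintro _ ⟨t, ht, rfl⟩
          exact ht.2.2
      obtain ⟨t, ht, hta, htz⟩ := haz.nonempty
      have hxz : a * z = x := by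
        rw [← ht]
        show a * z = t 0 * tprod n (Fin.tail t)
        rw [hta, htz]
      obtain ⟨⟨b, hb, hw⟩, hy⟩ := ih z hz
      refine ⟨⟨b, hb, ?_⟩, hy⟩
      rcases hw with ⟨v, h⟩ | ⟨u, h⟩ | ⟨u, v, h⟩
      · exact Or.inr (Or.inr ⟨a, v, fun n => by rw [mul_assoc, h, hxz]⟩)
      · exact Or.inr (Or.inl ⟨a * u, fun n => by rw [mul_assoc, h, hxz]⟩)
      · exact Or.inr (Or.inr ⟨a * u, v, fun n => by rw [mul_assoc a u, mul_assoc a, h, hxz]⟩)

/-- the tuple `e, …, e, b` -/
def app (e : S) : (n : ℕ) → S → Fin (n + 1) → S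
  | 0, b => fun _ => b
  | n + 1, b => Fin.cons e (app e n b)

omit [Semigroup S] in
theorem app_injective (e : S) (n : ℕ) : Function.Injective (app e n) := by
  induction n with
  | zero => exact fun a b hab => congrFun hab 0
  | succ n ih =>
    intro a b hab
    exact ih (Fin.cons_right_injective (α := fun _ => S) e hab)

theorem tprod_app {e b : S} (he : e * e = e) (hb : e * b = e) (n : ℕ) :
    tprod (n + 1) (app e (n + 1) b) = e := by
  induction n with
  | zero => exact hb
  | succ n ih =>
    show e * tprod (n + 1) (app e (n + 1) b) = e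
    rw [ih, he]

theorem tprod_const {e : S} (he : e * e = e) (n : ℕ) : tprod n (fun _ => e) = e := by
  induction n with
  | zero => rfl
  | succ n ih =>
    show e * tprod n (fun _ => e) = e
    rw [ih, he]

end

/-- **The semigroups with full intersection sets.**  (1) Property 2 holds if and only if for every
`x` there is a finite set `F` of square roots of `x` such that all but finitely many pairs `(b, c)`
with `b * c = x` have `b ∈ F` or `c ∈ F`.  (2) `S` has both properties if and only if this holds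
and there is an idempotent `e` with `e * b = e` for infinitely many `b` or `b * e = e` for
infinitely many `b`.  (3) If property 2 holds, then each element with infinitely many factorisations
into `n + 1` factors, for some `n`, is idempotent. -/
theorem result (S : Type u) [Semigroup S] :
    (FullIntersections S ↔ FewPairs S) ∧
    (InfinitelyRepresented S ∧ FullIntersections S ↔ FewPairs S ∧
      ∃ e : S, e * e = e ∧ ({b | e * b = e}.Infinite ∨ {b | b * e = e}.Infinite)) ∧
    (FullIntersections S →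
      ∀ (x : S) (n : ℕ), {t : Fin (n + 1) → S | tprod n t = x}.Infinite → x * x = x) := by
  have h12 : FullIntersections S ↔ FewPairs S :=
    ⟨fun h => few_of_loc (loc_of_full h), fun h => (loc_of_few h).full⟩
  refine ⟨h12, ⟨?_, ?_⟩, ?_⟩
  · rintro ⟨⟨n₀, hn⟩, hF⟩
    refine ⟨h12.1 hF, ?_⟩
    have hS := loc_of_full hF
    obtain ⟨x, hx⟩ := hn n₀ le_rfl
    obtain ⟨-, y, hy⟩ := hS.word n₀ x hx
    obtain ⟨a, b, hb, h | h⟩ := hS.pairs hy
    · obtain ⟨h1, h2⟩ := hS.cubeR hb h
      refine ⟨a * a, by rw [mul_assoc, h2, h2], Or.inr (infinite_of_seq b hb fun n => ?_)⟩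
      show b n * (a * a) = a * a
      rw [← mul_assoc, h, h1, mul_assoc, h2]
    · obtain ⟨h1, h2⟩ := hS.cubeL hb h
      refine ⟨a * a, by rw [mul_assoc, h2, h2], Or.inl (infinite_of_seq b hb fun n => ?_)⟩
      show a * a * b n = a * a
      rw [mul_assoc, h, h1, h2]
  · rintro ⟨hF, e, he, h⟩
    refine ⟨⟨1, fun n hn => ⟨e, ?_⟩⟩, h12.2 hF⟩
    obtain ⟨k, rfl⟩ : ∃ k, n = k + 1 := ⟨n - 1, by omega⟩
    rcases h with h | h
    · refine (h.image (f := app e (k + 1)) (app_injective e _).injOn).mono ?_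
      rintro _ ⟨b, hb, rfl⟩
      exact tprod_app he hb k
    · refine (h.image (f := fun b => (Fin.cons b fun _ => e : Fin (k + 2) → S)) ?_).mono ?_
      · intro a _ b _ hab
        exact congrFun hab 0
      · rintro _ ⟨b, hb, rfl⟩
        show b * tprod k (fun _ => e) = e
        rw [tprod_const he]
        exact hb
  · intro hF x n hx
    have hS := loc_of_full hF
    exact hS.idem (hS.word n x hx).1

end Pool.Agent.Results.MP_3b8abe_co.FactorPairs
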